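import Pool.Agent.W559.Et.Stm3

set_option autoImplicit false
set_option linter.unusedSectionVars false

open MvPolynomial AlgebraicGeometry CategoryTheory

universe u

namespace Pool.Agent.W150.Et

open Pool.Agent.W559.Mg Pool.Agent.W559.Et

lemma fg_of_smooth {k D : Type u} [Field k] [CommRing D] [Algebra k D] (S : Subalgebra k D)
    (h : Algebra.Smooth k S) : S.FG := by
  have h2 : Algebra.FiniteType k S := inferInstance
  exact S.fg_iff_finiteType.2 h2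

lemma fx_eq_top {k K : Type u} [Field k] [Field K] [Algebra k K] (γ : K →ₐ[k] K)
    (h : ∀ x, γ x = x) : fx (gm G3 γ) = ⊤ := by
  rw [eq_top_iff]
  intro f _
  rw [mem_fx]
  have h1 : γ = AlgHom.id k K := AlgHom.ext h
  rw [h1]
  ext d
  exact gm_coeff (AlgHom.id k K) f d

theorem main (h1 : BaseStm.{u}) (h2 : RwStm.{u}) (h3 : RwSmStm.{u}) (h4 : SecWStm.{u})
    (h5 : CbSmStm.{u}) (h6 : OneStm.{u}) (h7 : TwoStm.{u}) (h8 : OfPbStm.{u})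
    (h9 : StepStm.{u}) : FinStm.{u} := by
  intro k K _ _ _ γ h p M ω D 𝒱 Kf 𝒜 W T _ B H A hsm hs1 hs2
  have hPB := h1 k K γ h p M ω D 𝒱 Kf 𝒜 W T B H A
  have key : ∃ (T' : Type u) (_ : Finite T') (E' : ℕ) (C' : T' → Subalgebra k (ML K G3))
      (H' : T' → K), MB 𝒱 Kf W E' C' H' := by
    by_cases c1 : ∃ x, γ^[p] x ≠ x
    · have hsmR : ∀ t, Algebra.Smooth k (RW γ h p ω (B t)) := fun t =>
        h3 k K γ h p M ω D (B t) (A.g t) (A.st t) p (hs2 c1 t).1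
      have hR := h2 k K γ h p M ω D 𝒱 Kf 𝒜 W T B H A p
        (by obtain ⟨x, hx⟩ := c1; exact ⟨x, by rwa [pow_app]⟩)
        (fun t => fg_of_smooth _ (hsmR t))
      exact h7 k K γ p D.pp D.pk D.g 𝒱 Kf 𝒜 W M T _ H hPB _ hR
        (fun t δ x a hx hx0 hγ ht ha => h4 k K γ h p M ω D (B t) (A.g t) (A.st t)
          (hs2 c1 t).2 δ x a hx hx0 hγ ht ha)
    · push Not at c1
      by_cases c2 : ∃ x, γ x ≠ x
      · have hsmR : ∀ t, Algebra.Smooth k (RW γ h 1 ω (B t)) := fun t =>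
          h3 k K γ h p M ω D (B t) (A.g t) (A.st t) 1 (hs1 c1 t)
        have hR := h2 k K γ h p M ω D 𝒱 Kf 𝒜 W T B H A 1
          (by obtain ⟨x, hx⟩ := c2; exact ⟨x, by rwa [pow_one]⟩)
          (fun t => fg_of_smooth _ (hsmR t))
        exact h6 k K γ p D.pp D.pk c1 𝒱 Kf 𝒜 W M T _ H hPB _ hR hsmR
      · push Not at c2
        refine ⟨T, inferInstance, M, _, H, h8 k K G3 𝒱 Kf 𝒜 W _ M T _ H hPB ?_⟩
        intro t
        rw [fx_eq_top γ c2, inf_top_eq]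
        exact h5 k K γ h p M ω D (B t) (A.st t) (hsm t)
  obtain ⟨T0, hT0, E0, C0, H0, m0⟩ := key
  obtain ⟨T1, hT1, E1, C1, H1, m1⟩ := h9 k K (ℤ × (ℤ × Unit)) 𝒱 Kf 𝒜 W T0 E0 C0 H0 m0
  obtain ⟨T2, hT2, E2, C2, H2, m2⟩ := h9 k K (ℤ × Unit) 𝒱 Kf 𝒜 W T1 E1 C1 H1 m1
  exact h9 k K Unit 𝒱 Kf 𝒜 W T2 E2 C2 H2 m2

end Pool.Agent.W150.Et
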